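import Pool.Agent.Helper36.SPR.St
import Pool.Agent.Helper36.SPR.St2

/-!
Project SPR (MP_343216_nt), module TR2: `k`-subsets versus maps.
-/

set_option autoImplicit false

namespace Pool.Agent.Helper75.SPR

open Finset Pool.Agent.Helper36.SPR

theorem hTR2 : StTR2 := by
  intro k R N P
  let W : Finset (Fin k → ℕ) := (Fintype.piFinset (fun _ : Fin k => range N)).filter
    (fun w => (P.filter (fun p => 1 + ∑ i, (2 : ZMod p) ^ (w i) = 0)).card ≤ R)
  let V : Finset (Fin k → Fin N) := (univ : Finset (Fin k → Fin N)).filter (fun v =>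
    (P.filter (fun p => 1 + ∑ i, (2 : ZMod p) ^ (v i : ℕ) = 0)).card ≤ R)
  let DD : Finset (Finset ℕ) := ((Ico 1 N).powersetCard k).filter (fun D =>
    (P.filter (fun p => p ∣ 1 + ∑ i ∈ D, 2 ^ i)).card ≤ R)
  change k.factorial * DD.card ≤ V.card
  have step1 : k.factorial * DD.card ≤ W.card := by
    have hc : (DD.sigma (fun D => (univ : Finset (Fin k ≃ ↥D)))).card = k.factorial * DD.card := by
      rw [Finset.card_sigma, Finset.sum_congr rfl (g := fun _ => k.factorial)]
      · rw [Finset.sum_const, smul_eq_mul, mul_comm]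
      · intro D hD
        have hDk : D.card = k := (mem_powersetCard.1 (mem_filter.1 hD).1).2
        rw [Finset.card_univ, Fintype.card_equiv (D.equivFinOfCardEq hDk).symm, Fintype.card_fin]
    rw [← hc]
    apply Finset.card_le_card_of_injOn
      (fun (x : Σ D : Finset ℕ, (Fin k ≃ ↥D)) => fun i => ((x.2 i : ↥x.1) : ℕ))
    · rintro ⟨D, e⟩ hx
      have hD : D ∈ DD := (mem_sigma.1 (mem_coe.1 hx)).1
      have hD1 := (mem_powersetCard.1 (mem_filter.1 hD).1).1
      have hD2 := (mem_filter.1 hD).2
      rw [mem_coe, mem_filter]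
      refine ⟨?_, ?_⟩
      · rw [Fintype.mem_piFinset]
        intro i
        exact mem_range.2 (mem_Ico.1 (hD1 (e i).2)).2
      · refine le_trans (le_of_eq ?_) hD2
        congr 1
        apply Finset.filter_congr
        intro p _
        have hs : ∑ i : Fin k, (2 : ZMod p) ^ ((e i : ↥D) : ℕ) = ∑ i ∈ D, (2 : ZMod p) ^ i := by
          rw [Equiv.sum_comp e (fun x : ↥D => (2 : ZMod p) ^ (x : ℕ))]
          exact Finset.sum_coe_sort D (fun x => (2 : ZMod p) ^ x)
        simp only [hs]
        rw [← ZMod.natCast_eq_zero_iff]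
        push_cast
        rfl
    · rintro ⟨D, e⟩ hx ⟨D', e'⟩ hx' hee
      have himg : ∀ (D : Finset ℕ) (e : Fin k ≃ ↥D),
          (univ : Finset (Fin k)).image (fun i => ((e i : ↥D) : ℕ)) = D := by
        intro D e
        ext x
        simp only [mem_image, mem_univ, true_and]
        constructor
        · rintro ⟨i, rfl⟩
          exact (e i).2
        · intro hx
          exact ⟨e.symm ⟨x, hx⟩, by simp⟩
      have hee' : (fun i => ((e i : ↥D) : ℕ)) = fun i => ((e' i : ↥D') : ℕ) := hee
      have hDD : D = D' := by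
        rw [← himg D e, ← himg D' e', hee']
      subst hDD
      have : e = e' := by
        ext i
        exact congrFun hee' i
      rw [this]
  have step2 : W.card ≤ V.card := by
    apply Finset.card_le_card_of_surjOn (fun (v : Fin k → Fin N) (i : Fin k) => ((v i : Fin N) : ℕ))
    intro w hw
    have hw1 := (mem_filter.1 (mem_coe.1 hw)).1
    have hw2 := (mem_filter.1 (mem_coe.1 hw)).2
    rw [Fintype.mem_piFinset] at hw1
    refine ⟨fun i => ⟨w i, mem_range.1 (hw1 i)⟩, ?_, rfl⟩
    rw [mem_coe, mem_filter]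
    exact ⟨mem_univ _, hw2⟩
  exact step1.trans step2

end Pool.Agent.Helper75.SPR
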