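import Pool.Agent.Helper36.SPR.St

/-!
Project SPR (MP_343216_nt), module TR: transfer from tuples modulo `T` to `k`-subsets.
-/

set_option autoImplicit false

namespace Pool.Agent.Helper75.SPR

open Finset Pool.Agent.Helper36.SPR

private theorem TR_count (N T r : ℕ) (hT : 0 < T) :
    ((((range N).filter (fun x => x % T = r)).card : ℕ) : ℝ) ≤ ((N : ℝ) + T) / T := by
  have h1 : ((range N).filter (fun x => x % T = r)).card ≤ (range (N / T + 1)).card := by
    apply Finset.card_le_card_of_injOn (fun x => x / T)
    · intro x hx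
      simp only [coe_filter, mem_range] at hx
      simp only [coe_range, Set.mem_Iio]
      exact Nat.lt_succ_of_le (Nat.div_le_div_right hx.1.le)
    · intro x hx y hy hxy
      simp only [coe_filter, mem_range] at hx hy
      have h2 := Nat.div_add_mod x T
      have h3 := Nat.div_add_mod y T
      have h4 : x / T = y / T := hxy
      rw [hx.2, h4] at h2
      rw [hy.2] at h3
      exact h2.symm.trans h3
  rw [card_range] at h1
  have hT' : (0 : ℝ) < T := by exact_mod_cast hT
  calc ((((range N).filter (fun x => x % T = r)).card : ℕ) : ℝ) ≤ ((N / T + 1 : ℕ) : ℝ) := by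
        exact_mod_cast h1
    _ = ((N / T : ℕ) : ℝ) + 1 := by push_cast; ring
    _ ≤ (N : ℝ) / T + 1 := by
        have := Nat.cast_div_le (α := ℝ) (m := N) (n := T)
        linarith
    _ = ((N : ℝ) + T) / T := by field_simp

theorem hTR : StTR := by
  intro T k R N θ P hT hP hV
  have hT' : (0 : ℝ) < T := by exact_mod_cast hT
  -- the tuples
  let W : Finset (Fin k → ℕ) := (Fintype.piFinset (fun _ : Fin k => range N)).filter
    (fun w => (P.filter (fun p => 1 + ∑ i, (2 : ZMod p) ^ (w i) = 0)).card ≤ R)
  let V : Finset (Fin k → Fin T) := (univ : Finset (Fin k → Fin T)).filter (fun v =>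
    (P.filter (fun p => 1 + ∑ i, (2 : ZMod p) ^ (v i : ℕ) = 0)).card ≤ R)
  let DD : Finset (Finset ℕ) := ((Ico 1 N).powersetCard k).filter (fun D =>
    (P.filter (fun p => p ∣ 1 + ∑ i ∈ D, 2 ^ i)).card ≤ R)
  change ((V.card : ℕ) : ℝ) ≤ θ * (T : ℝ) ^ k at hV
  change (k.factorial : ℝ) * ((DD.card : ℕ) : ℝ) ≤ θ * ((N : ℝ) + T) ^ k
  -- step 1
  have step1 : k.factorial * DD.card ≤ W.card := by
    have hc : (DD.sigma (fun D => (univ : Finset (Fin k ≃ ↥D)))).card = k.factorial * DD.card := by
      rw [Finset.card_sigma, Finset.sum_congr rfl (g := fun _ => k.factorial)]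
      · rw [Finset.sum_const, smul_eq_mul, mul_comm]
      · intro D hD
        have hDk : D.card = k := (mem_powersetCard.1 (mem_filter.1 hD).1).2
        rw [Finset.card_univ, Fintype.card_equiv (D.equivFinOfCardEq hDk).symm, Fintype.card_fin]
    rw [← hc]
    apply Finset.card_le_card_of_injOn
      (fun (x : Σ D : Finset ℕ, (Fin k ≃ ↥D)) => fun i => ((x.2 i : ↥x.1) : ℕ))
    · rintro ⟨D, e⟩ hx
      have hD : D ∈ DD := (mem_sigma.1 (mem_coe.1 hx)).1
      have hD1 := (mem_powersetCard.1 (mem_filter.1 hD).1).1
      have hD2 := (mem_filter.1 hD).2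
      rw [mem_coe, mem_filter]
      refine ⟨?_, ?_⟩
      · rw [Fintype.mem_piFinset]
        intro i
        exact mem_range.2 (mem_Ico.1 (hD1 (e i).2)).2
      · refine le_trans (le_of_eq ?_) hD2
        congr 1
        apply Finset.filter_congr
        intro p _
        have hs : ∑ i : Fin k, (2 : ZMod p) ^ ((e i : ↥D) : ℕ) = ∑ i ∈ D, (2 : ZMod p) ^ i := by
          rw [Equiv.sum_comp e (fun x : ↥D => (2 : ZMod p) ^ (x : ℕ))]
          exact Finset.sum_coe_sort D (fun x => (2 : ZMod p) ^ x)
        simp only [hs]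
        rw [← ZMod.natCast_eq_zero_iff]
        push_cast
        rfl
    · rintro ⟨D, e⟩ hx ⟨D', e'⟩ hx' hee
      have himg : ∀ (D : Finset ℕ) (e : Fin k ≃ ↥D),
          (univ : Finset (Fin k)).image (fun i => ((e i : ↥D) : ℕ)) = D := by
        intro D e
        ext x
        simp only [mem_image, mem_univ, true_and]
        constructor
        · rintro ⟨i, rfl⟩
          exact (e i).2
        · intro hx
          exact ⟨e.symm ⟨x, hx⟩, by simp⟩
      have hee' : (fun i => ((e i : ↥D) : ℕ)) = fun i => ((e' i : ↥D') : ℕ) := hee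
      have hDD : D = D' := by
        rw [← himg D e, ← himg D' e', hee']
      subst hDD
      have : e = e' := by
        ext i
        exact congrFun hee' i
      rw [this]
  -- step 2
  have step2 : ((W.card : ℕ) : ℝ) ≤ (V.card : ℝ) * (((N : ℝ) + T) / T) ^ k := by
    let red : (Fin k → ℕ) → (Fin k → Fin T) := fun w i => ⟨w i % T, Nat.mod_lt _ hT⟩
    have hmaps : ∀ w ∈ W, red w ∈ V := by
      intro w hw
      have hw2 := (mem_filter.1 hw).2
      rw [mem_filter]
      refine ⟨mem_univ _, le_trans (le_of_eq ?_) hw2⟩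
      congr 1
      apply Finset.filter_congr
      intro p hp
      have hs : ∀ x : ℕ, (2 : ZMod p) ^ (x % T) = (2 : ZMod p) ^ x := by
        intro x
        conv_rhs => rw [← Nat.div_add_mod x T, pow_add, pow_mul, hP p hp, one_pow, one_mul]
      simp only [red, hs]
    rw [Finset.card_eq_sum_card_fiberwise (f := red) (t := V) hmaps]
    push_cast
    rw [← nsmul_eq_mul]
    apply Finset.sum_le_card_nsmul
    intro v _
    have hsub : W.filter (fun w => red w = v) ⊆
        Fintype.piFinset (fun i => (range N).filter (fun x => x % T = (v i : ℕ))) := by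
      intro w hw
      rw [mem_filter] at hw
      rw [Fintype.mem_piFinset]
      intro i
      rw [mem_filter]
      refine ⟨Fintype.mem_piFinset.1 (mem_filter.1 hw.1).1 i, ?_⟩
      rw [← hw.2]
    calc (((W.filter (fun w => red w = v)).card : ℕ) : ℝ)
        ≤ (((Fintype.piFinset (fun i => (range N).filter
            (fun x => x % T = (v i : ℕ)))).card : ℕ) : ℝ) := by
          exact_mod_cast Finset.card_le_card hsub
      _ = ∏ i : Fin k, (((range N).filter (fun x => x % T = (v i : ℕ))).card : ℝ) := by
          rw [Fintype.card_piFinset]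
          push_cast
          rfl
      _ ≤ ∏ _i : Fin k, (((N : ℝ) + T) / T) := by
          apply Finset.prod_le_prod
          · intro i _
            positivity
          · intro i _
            exact TR_count N T _ hT
      _ = (((N : ℝ) + T) / T) ^ k := by
          rw [Finset.prod_const, card_univ, Fintype.card_fin]
  have step1' : (k.factorial : ℝ) * ((DD.card : ℕ) : ℝ) ≤ ((W.card : ℕ) : ℝ) := by
    exact_mod_cast step1
  calc (k.factorial : ℝ) * ((DD.card : ℕ) : ℝ) ≤ ((W.card : ℕ) : ℝ) := step1'
    _ ≤ (V.card : ℝ) * (((N : ℝ) + T) / T) ^ k := step2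
    _ ≤ (θ * (T : ℝ) ^ k) * (((N : ℝ) + T) / T) ^ k :=
        mul_le_mul_of_nonneg_right hV (by positivity)
    _ = θ * ((N : ℝ) + T) ^ k := by
        rw [div_pow]
        field_simp

end Pool.Agent.Helper75.SPR
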